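import Pool.Agent.Lib.MP_4ebb14_gt.Defs
import Pool.Agent.Lib.MP_4ebb14_gt.Main

/-!
# (TAM) implies that first countable Čech-complete spaces with `c(X) = ℵ₀` are separable

The definitions `CCC`, `CechComplete` and `TAM` are in `Pool/Agent/Lib/MP_4ebb14_gt/Defs.lean`.

Outline of the proof (all steps are carried out from (TAM) directly, in the files imported above).

1. `Hereditary.lean`: (TAM), applied to the space of maximal homogeneous sets, gives: if `𝒦` is a
   hereditary family of finite subsets of an uncountable set `ι`, containing all singletons, such
   that any uncountable subfamily has two different members whose union is in `𝒦`, then there is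
   an uncountable `A ⊆ ι` all of whose finite subsets are in `𝒦`.
2. `Bounding.lean`: hence any family of `ℵ₁` functions `ℕ → ℕ` is eventually dominated by one
   function.
3. `Caliber.lean`: hence, if `W n i` (`n, i ∈ ℕ`) are open sets of a ccc space with
   `⋃ i, W n i` dense for each `n`, and `V a` (`a < ω₁`) are nonempty open sets, there are an
   uncountable set `A` and `x : ℕ → ℕ` such that `{V a : a ∈ A} ∪ {W n (x n) : n ∈ ℕ}` is centered.
4. `Main.lean`: a closing-off argument of length `ω₁` shows separability (countable tightness is
   all that is used of first countability).
-/

namespace Pool.Agent.Results.MP_4ebb14_gt.Separable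

open Pool.Agent.Lib.MP_4ebb14_gt

universe u

/-- (TAM) implies that every first countable Čech-complete space `X` with `c(X) = ℵ₀` is
separable. -/
theorem result : TAM.{u} → ∀ (X : Type u) [TopologicalSpace X] [FirstCountableTopology X],
    CechComplete X → CCC X → TopologicalSpace.SeparableSpace X :=
  fun hTAM X _ _ hC hX => hTAM.separable hC hX (countablyTight_of_firstCountable X)

end Pool.Agent.Results.MP_4ebb14_gt.Separable
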